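import Pool.Agent.Helper65.TB.CASEA

/-!
# Project TB: `G_B2`
-/

set_option autoImplicit false

open Finset Filter Topology
open Pool.Agent.Helper90.Twin (Ps Gz mem_Ps)
open Pool.Agent.Helper22.TB
open scoped Classical

namespace Pool.Agent.Helper65.TB

/-- the local factor -/
noncomputable def gg (p : ℕ) : ℝ := if 5 ≤ p then 2 / ((p : ℝ) - 2) * ((p : ℝ) / ((p : ℝ) - 1)) else 0

theorem gg_nonneg (p : ℕ) : 0 ≤ gg p := by
  unfold gg
  split_ifs with h
  · have h1 : (5 : ℝ) ≤ p := by exact_mod_cast h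
    have h2 : 0 < (p : ℝ) - 2 := by linarith
    have h3 : 0 < (p : ℝ) - 1 := by linarith
    positivity
  · exact le_rfl

theorem gg_le {p : ℕ} (h : 5 ≤ p) : gg p ≤ 2 / p + 20 / (p : ℝ) ^ 2 := by
  have h1 : (5 : ℝ) ≤ p := by exact_mod_cast h
  have h2 : 0 < (p : ℝ) - 2 := by linarith
  have h3 : 0 < (p : ℝ) - 1 := by linarith
  unfold gg
  rw [if_pos h, div_mul_div_comm, div_add_div _ _ (by positivity) (by positivity),
    div_le_div_iff₀ (by positivity) (by positivity)]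
  have h4 : (0 : ℝ) ≤ p := by linarith
  have h5 : 0 ≤ (14 * (p : ℝ) ^ 2 - 56 * p + 40) := by nlinarith
  nlinarith [mul_nonneg h4 h5]

theorem prime_ge {q p : ℕ} (hq : SF6 q) (hp : p ∈ q.primeFactors) : 5 ≤ p := by
  have hpp := Nat.prime_of_mem_primeFactors hp
  have hpd := Nat.dvd_of_mem_primeFactors hp
  by_contra hlt
  have h2 := hpp.two_le
  have hc : Nat.Coprime p 6 := Nat.Coprime.coprime_dvd_left hpd hq.2
  interval_cases p
  · revert hc; decide
  · revert hc; decide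
  · revert hpp; decide

theorem gq_tot {q : ℕ} (hq : SF6 q) : gq q * (q / Nat.totient q) = ∏ p ∈ q.primeFactors, gg p := by
  have h1 : (q : ℝ) / Nat.totient q = ∏ p ∈ q.primeFactors, ((p : ℝ) / ((p : ℝ) - 1)) := by
    have h2 : Nat.totient q = ∏ p ∈ q.primeFactors, (p - 1) := by
      have h3 := Nat.totient_eq_prod_factorization hq.1.ne_zero
      rw [h3, Finsupp.prod, Nat.support_factorization]
      refine Finset.prod_congr rfl fun p hp => ?_
      have h4 := Nat.prime_of_mem_primeFactors hp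
      have h5 : q.factorization p = 1 := by
        have h6 := hq.1.natFactorization_le_one p
        have h7 : 0 < q.factorization p := h4.factorization_pos_of_dvd hq.1.ne_zero
          (Nat.dvd_of_mem_primeFactors hp)
        omega
      rw [h5]
      simp
    rw [Finset.prod_div_distrib]
    congr 1
    · rw [← Nat.cast_prod, Nat.prod_primeFactors_of_squarefree hq.1]
    · rw [h2, Nat.cast_prod]
      refine Finset.prod_congr rfl fun p hp => ?_
      rw [Nat.cast_sub (Nat.prime_of_mem_primeFactors hp).one_le]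
      simp
  rw [h1]
  unfold gq
  rw [← Finset.prod_mul_distrib]
  refine Finset.prod_congr rfl fun p hp => ?_
  unfold gg
  rw [if_pos (prime_ge hq hp)]

theorem gB2 : G_B2 := by
  intro hMP
  obtain ⟨⟨C₀, hC₀, h1⟩, -, -⟩ := hMP
  refine ⟨Real.exp (2 * C₀ + 20 * ∑' n : ℕ, 1 / (n : ℝ) ^ 2), Real.exp_pos _, fun Q hQ => ?_⟩
  have hQ0 : (3 : ℝ) ≤ Q := by exact_mod_cast hQ
  have hlQ : 0 < Real.log Q := Real.log_pos (by linarith)
  have h2 : ∑ q ∈ (Icc 1 Q).filter SF6, gq q * (q / Nat.totient q) ≤ ∏ p ∈ Ps Q, (1 + gg p) := by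
    refine le_trans (le_of_eq (Finset.sum_congr rfl fun q hq => ?_))
      (sum_le_prod ((Icc 1 Q).filter SF6) Q gg gg_nonneg fun q hq => ?_)
    · exact gq_tot (Finset.mem_filter.1 hq).2
    · rw [Finset.mem_filter, Finset.mem_Icc] at hq
      exact ⟨hq.2, hq.1.2⟩
  have h3 : ∏ p ∈ Ps Q, (1 + gg p) ≤ Real.exp (∑ p ∈ Ps Q, gg p) := by
    rw [Real.exp_sum]
    refine Finset.prod_le_prod (fun p _ => by linarith [gg_nonneg p]) fun p _ => ?_
    have := Real.add_one_le_exp (gg p)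
    linarith
  have h4 : ∑ p ∈ Ps Q, gg p ≤ 2 * Real.log (Real.log Q) +
      (2 * C₀ + 20 * ∑' n : ℕ, 1 / (n : ℝ) ^ 2) := by
    have h5 : ∑ p ∈ Ps Q, gg p ≤ ∑ p ∈ Ps Q, (2 / (p : ℝ) + 20 / (p : ℝ) ^ 2) :=
      Finset.sum_le_sum fun p hp => gg_le (mem_Ps.1 hp).1
    rw [Finset.sum_add_distrib] at h5
    have e1 : ∑ p ∈ Ps Q, 2 / (p : ℝ) = 2 * ∑ p ∈ Ps Q, 1 / (p : ℝ) := by
      rw [Finset.mul_sum]
      exact Finset.sum_congr rfl fun p _ => by ring
    have e2 : ∑ p ∈ Ps Q, 20 / (p : ℝ) ^ 2 = 20 * ∑ p ∈ Ps Q, 1 / (p : ℝ) ^ 2 := by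
      rw [Finset.mul_sum]
      exact Finset.sum_congr rfl fun p _ => by ring
    have e3 := sum_sq Q
    have e4 := h1 Q hQ
    rw [e1, e2] at h5
    linarith
  calc _ ≤ _ := h2.trans (h3.trans (Real.exp_le_exp.2 h4))
    _ = Real.exp (2 * C₀ + 20 * ∑' n : ℕ, 1 / (n : ℝ) ^ 2) *
        (Real.exp (Real.log (Real.log Q))) ^ 2 := by
        rw [← Real.exp_nat_mul, ← Real.exp_add]
        congr 1
        push_cast
        ring
    _ = _ := by rw [Real.exp_log hlQ]

end Pool.Agent.Helper65.TB
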