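import Pool.Agent.Helper22.TB.Goals

/-!
# Project TB: `G_CASEA`
-/

set_option autoImplicit false

open Finset Filter Topology
open Pool.Agent.Helper90.Twin (Ps Gz mem_Ps)
open Pool.Agent.Helper22.TB
open scoped Classical

namespace Pool.Agent.Helper65.TB

/-- the factor of `CQ` -/
noncomputable def cc (p : ℕ) : ℝ := 4 * (p : ℝ) / ((p : ℝ) - 2) ^ 2

theorem cc_nonneg (p : ℕ) : 0 ≤ cc p := by
  unfold cc
  positivity

theorem cc_le {p : ℕ} (hp : 5 ≤ p) : cc p ≤ 4 / p + 48 / (p : ℝ) ^ 2 := by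
  have h : (5 : ℝ) ≤ p := by exact_mod_cast hp
  unfold cc
  rw [div_add_div _ _ (by positivity) (by positivity), div_le_div_iff₀ (by nlinarith) (by positivity)]
  have h1 : 0 ≤ (2 * (p : ℝ) ^ 2 - 11 * p + 12) := by nlinarith
  have h2 : (0 : ℝ) ≤ p := by linarith
  nlinarith [mul_nonneg h2 (mul_nonneg h2 h1), mul_nonneg h2 h1]

theorem cc_le' {p : ℕ} (hp : 5 ≤ p) : cc p ≤ 12 / p := by
  have h : (5 : ℝ) ≤ p := by exact_mod_cast hp
  unfold cc
  rw [div_le_div_iff₀ (by nlinarith) (by positivity)]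
  nlinarith

/-- The sum over the sets of primes. -/
theorem sum_le_prod (F : Finset ℕ) (M : ℕ) (w : ℕ → ℝ) (hw : ∀ p, 0 ≤ w p)
    (hF : ∀ q ∈ F, SF6 q ∧ q ≤ M) :
    ∑ q ∈ F, ∏ p ∈ q.primeFactors, w p ≤ ∏ p ∈ Ps M, (1 + w p) := by
  rw [Finset.prod_one_add]
  have hinj : Set.InjOn (fun q : ℕ => q.primeFactors) (F : Set ℕ) := by
    intro a ha b hb hab
    have h1 := Nat.prod_primeFactors_of_squarefree (hF a ha).1.1
    have h2 := Nat.prod_primeFactors_of_squarefree (hF b hb).1.1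
    rw [← h1, ← h2]
    simp only at hab
    rw [hab]
  rw [← Finset.sum_image (s := F) (g := fun q : ℕ => q.primeFactors)
    (f := fun J : Finset ℕ => ∏ p ∈ J, w p) hinj]
  refine Finset.sum_le_sum_of_subset_of_nonneg ?_ fun J _ _ => Finset.prod_nonneg fun p _ => hw p
  intro J hJ
  rw [Finset.mem_image] at hJ
  obtain ⟨q, hq, rfl⟩ := hJ
  rw [Finset.mem_powerset]
  intro p hp
  obtain ⟨hs, hM⟩ := hF q hq
  have hpp := Nat.prime_of_mem_primeFactors hp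
  have hpd := Nat.dvd_of_mem_primeFactors hp
  have hq0 : 0 < q := Nat.pos_of_ne_zero hs.1.ne_zero
  rw [mem_Ps]
  refine ⟨?_, (Nat.le_of_dvd hq0 hpd).trans hM, hpp⟩
  by_contra hlt
  have h2 := hpp.two_le
  have hc : Nat.Coprime p 6 := Nat.Coprime.coprime_dvd_left hpd hs.2
  interval_cases p
  · revert hc; decide
  · revert hc; decide
  · revert hpp; decide

/-- `∑ 1 / p ^ 2` is bounded. -/
theorem sum_sq (M : ℕ) : ∑ p ∈ Ps M, 1 / (p : ℝ) ^ 2 ≤ ∑' n : ℕ, 1 / (n : ℝ) ^ 2 :=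
  Summable.sum_le_tsum _ (fun _ _ => by positivity) (Real.summable_one_div_nat_pow.2 (by norm_num))

/-- The weighted factor. -/
noncomputable def ww (y κ : ℝ) (p : ℕ) : ℝ :=
  cc p * (if (p : ℝ) ≤ y then Real.exp (κ * Real.log p) else 1)

theorem ww_nonneg (y κ : ℝ) (p : ℕ) : 0 ≤ ww y κ p := by
  unfold ww
  have := cc_nonneg p
  split_ifs <;> positivity

theorem ww_le {y κ : ℝ} (hκ : 0 ≤ κ) (hy : 0 < y) (hk : κ * Real.log y ≤ 48) {p : ℕ} (hp : 5 ≤ p) :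
    ww y κ p ≤ 4 / p + 48 / (p : ℝ) ^ 2 +
      (if (p : ℝ) ≤ y then 12 * κ * Real.exp 48 * (Real.log p / p) else 0) := by
  have h1 := cc_le hp
  have h2 := cc_le' hp
  have h0 := cc_nonneg p
  have hp0 : (0 : ℝ) < p := by exact_mod_cast (by omega : 0 < p)
  have hl : 0 ≤ Real.log p := Real.log_natCast_nonneg p
  unfold ww
  split_ifs with h
  · have h3 : κ * Real.log p ≤ 48 :=
      (mul_le_mul_of_nonneg_left (Real.log_le_log hp0 h) hκ).trans hk
    have h4 : 0 ≤ κ * Real.log p := by positivity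
    have h5 : Real.exp (κ * Real.log p) ≤ 1 + κ * Real.log p * Real.exp 48 := by
      have h6 := Real.add_one_le_exp (-(κ * Real.log p))
      have h7 : Real.exp (κ * Real.log p) * Real.exp (-(κ * Real.log p)) = 1 := by
        rw [← Real.exp_add]
        simp
      have h8 : Real.exp (κ * Real.log p) ≤ Real.exp 48 := Real.exp_le_exp.2 h3
      have h9 : 0 < Real.exp (κ * Real.log p) := Real.exp_pos _
      nlinarith [mul_le_mul_of_nonneg_left h6 h9.le, mul_le_mul_of_nonneg_left h8 h4]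
    calc cc p * Real.exp (κ * Real.log p)
        ≤ cc p * (1 + κ * Real.log p * Real.exp 48) := mul_le_mul_of_nonneg_left h5 h0
      _ = cc p + cc p * (κ * Real.log p * Real.exp 48) := by ring
      _ ≤ (4 / p + 48 / (p : ℝ) ^ 2) + (12 / p) * (κ * Real.log p * Real.exp 48) := by
          gcongr
      _ = _ := by ring
  · simpa using h1

/-- The sum of the weighted factors. -/
theorem sum_ww {C₁ : ℝ} (hA : ∀ n : ℕ, 1 ≤ n → Pool.Agent.Helper69.LG.A n ≤ Real.log n + C₁)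
    {y κ : ℝ} (hκ : 0 ≤ κ) (hy : 1 ≤ y) (hk : κ * Real.log y ≤ 48) (M : ℕ) :
    ∑ p ∈ Ps M, ww y κ p ≤ 4 * ∑ p ∈ Ps M, 1 / (p : ℝ) + 48 * ∑' n : ℕ, 1 / (n : ℝ) ^ 2 +
      12 * Real.exp 48 * (48 + κ * C₁) := by
  have h1 : ∑ p ∈ Ps M, ww y κ p ≤ ∑ p ∈ Ps M, (4 / p + 48 / (p : ℝ) ^ 2 +
      (if (p : ℝ) ≤ y then 12 * κ * Real.exp 48 * (Real.log p / p) else 0)) :=
    Finset.sum_le_sum fun p hp => ww_le hκ (by linarith) hk (mem_Ps.1 hp).1
  refine h1.trans ?_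
  rw [Finset.sum_add_distrib, Finset.sum_add_distrib]
  have e1 : ∑ p ∈ Ps M, 4 / (p : ℝ) = 4 * ∑ p ∈ Ps M, 1 / (p : ℝ) := by
    rw [Finset.mul_sum]
    exact Finset.sum_congr rfl fun p _ => by ring
  have e2 : ∑ p ∈ Ps M, 48 / (p : ℝ) ^ 2 = 48 * ∑ p ∈ Ps M, 1 / (p : ℝ) ^ 2 := by
    rw [Finset.mul_sum]
    exact Finset.sum_congr rfl fun p _ => by ring
  have e3 := sum_sq M
  have e4 : ∑ p ∈ Ps M, (if (p : ℝ) ≤ y then 12 * κ * Real.exp 48 * (Real.log p / p) else 0) ≤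
      12 * κ * Real.exp 48 * Pool.Agent.Helper69.LG.A ⌊y⌋₊ := by
    rw [← Finset.sum_filter, ← Finset.mul_sum]
    refine mul_le_mul_of_nonneg_left ?_ (by positivity)
    unfold Pool.Agent.Helper69.LG.A
    refine Finset.sum_le_sum_of_subset_of_nonneg ?_ fun p _ _ =>
      Pool.Agent.Helper69.LG.term_nonneg p
    intro p hp
    rw [Finset.mem_filter, mem_Ps] at hp
    rw [Finset.mem_filter, Finset.mem_Icc]
    exact ⟨⟨by omega, Nat.le_floor hp.2⟩, hp.1.2.2⟩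
  have e5 : Pool.Agent.Helper69.LG.A ⌊y⌋₊ ≤ Real.log y + C₁ := by
    have h2 : 1 ≤ ⌊y⌋₊ := Nat.le_floor (by simpa using hy)
    refine (hA _ h2).trans ?_
    have h3 : Real.log (⌊y⌋₊ : ℝ) ≤ Real.log y :=
      Real.log_le_log (by exact_mod_cast h2) (Nat.floor_le (by linarith))
    linarith
  have e6 := mul_le_mul_of_nonneg_left e5 (by positivity : 0 ≤ 12 * κ * Real.exp 48)
  have e7 : 12 * κ * Real.exp 48 * (Real.log y + C₁) ≤ 12 * Real.exp 48 * (48 + κ * C₁) := by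
    have := mul_le_mul_of_nonneg_left hk (by positivity : 0 ≤ 12 * Real.exp 48)
    nlinarith
  rw [e1, e2]
  linarith

/-- Rankin. -/
theorem rankin {y κ LQ LL : ℝ} {Q q : ℕ} (hQ : 0 < Q) (hκ : 0 ≤ κ) (hLQ : LQ = Real.log Q)
    (hk : κ * LQ = 12 * LL) (hs : (Q : ℝ) ^ (1 / 4 : ℝ) < (smo y q : ℝ)) :
    CQ q ≤ Real.exp (-(3 * LL)) * ∏ p ∈ q.primeFactors, ww y κ p := by
  have hQ0 : (0 : ℝ) < Q := by exact_mod_cast hQ
  have h1 : ∏ p ∈ q.primeFactors, ww y κ p = CQ q * Real.exp (κ * Real.log (smo y q : ℝ)) := by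
    unfold ww CQ
    rw [Finset.prod_mul_distrib]
    congr 1
    rw [← Finset.prod_filter, ← Real.exp_sum, ← Finset.mul_sum]
    congr 2
    unfold smo
    push_cast
    rw [Real.log_prod]
    intro p hp
    have := Nat.prime_of_mem_primeFactors (Finset.mem_filter.1 hp).1
    exact_mod_cast this.ne_zero
  have h2 : LQ / 4 < Real.log (smo y q : ℝ) := by
    have := Real.log_lt_log (by positivity) hs
    rw [Real.log_rpow hQ0] at this
    rw [hLQ]
    linarith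
  have h3 : 3 * LL ≤ κ * Real.log (smo y q : ℝ) := by
    have := mul_le_mul_of_nonneg_left h2.le hκ
    linarith
  have h4 : 1 ≤ Real.exp (-(3 * LL)) * Real.exp (κ * Real.log (smo y q : ℝ)) := by
    rw [← Real.exp_add]
    exact Real.one_le_exp (by linarith)
  have h5 : 0 ≤ CQ q := by
    unfold CQ
    exact Finset.prod_nonneg fun p _ => cc_nonneg p
  rw [h1]
  calc CQ q = CQ q * 1 := by ring
    _ ≤ CQ q * (Real.exp (-(3 * LL)) * Real.exp (κ * Real.log (smo y q : ℝ))) :=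
        mul_le_mul_of_nonneg_left h4 h5
    _ = _ := by ring

theorem gCASEA : G_CASEA := by
  intro hMP
  obtain ⟨⟨C₀, hC₀, h1⟩, -, -⟩ := hMP
  obtain ⟨C₁, hC₁, h2⟩ := Pool.Agent.Helper69.LG.A_bound
  have hA : ∀ n : ℕ, 1 ≤ n → Pool.Agent.Helper69.LG.A n ≤ Real.log n + C₁ := fun n hn => by
    have := (abs_le.1 (h2 n hn)).2
    linarith
  obtain ⟨Q0, hQ0⟩ : ∃ Q0 : ℕ, ∀ Q : ℕ, Q0 ≤ Q → Real.exp 3 ≤ Real.log Q := by
    have := (Real.tendsto_log_atTop.comp tendsto_natCast_atTop_atTop).eventually_ge_atTop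
      (Real.exp 3)
    obtain ⟨Q0, h⟩ := Filter.eventually_atTop.1 this
    exact ⟨Q0, fun Q hQ => h Q hQ⟩
  refine ⟨Real.exp (4 * Real.log 2 + 4 * C₀ + 48 * ∑' n : ℕ, 1 / (n : ℝ) ^ 2 +
    12 * Real.exp 48 * (48 + 12 * C₁)), Q0 + 3, Real.exp_pos _, fun Q hQ => ?_⟩
  have hL3 := hQ0 Q (by omega)
  have hQ3 : 3 ≤ Q := by omega
  obtain ⟨LQ, hLQ⟩ : ∃ LQ, LQ = Real.log Q := ⟨_, rfl⟩
  obtain ⟨LL, hLL⟩ : ∃ LL, LL = Real.log LQ := ⟨_, rfl⟩
  rw [← hLQ] at hL3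
  have hLQ0 : 0 < LQ := lt_of_lt_of_le (Real.exp_pos _) hL3
  have hLL3 : 3 ≤ LL := by
    rw [hLL, Real.le_log_iff_exp_le hLQ0]
    exact hL3
  have hLLLQ : LL ≤ LQ := by
    rw [hLL]
    have := Real.log_le_sub_one_of_pos hLQ0
    linarith
  obtain ⟨κ, hκ⟩ : ∃ κ, κ = 12 * LL / LQ := ⟨_, rfl⟩
  have hκ0 : 0 ≤ κ := by rw [hκ]; positivity
  have hκ12 : κ ≤ 12 := by
    rw [hκ, div_le_iff₀ hLQ0]
    linarith
  have hk : κ * LQ = 12 * LL := by
    rw [hκ]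
    field_simp
  have hy : yQ Q = Real.exp (4 * LQ / LL) := by
    unfold yQ
    rw [← hLQ, ← hLL]
  have hly : Real.log (yQ Q) = 4 * LQ / LL := by rw [hy, Real.log_exp]
  have hky : κ * Real.log (yQ Q) ≤ 48 := by
    rw [hly, hκ]
    apply le_of_eq
    field_simp
    norm_num
  have hy1 : 1 ≤ yQ Q := by
    rw [hy]
    exact Real.one_le_exp (by positivity)
  have hstep : ∑ q ∈ (Ioc Q (2 * Q)).filter
      (fun q => SF6 q ∧ (Q : ℝ) ^ (1 / 4 : ℝ) < (smo (yQ Q) q : ℝ)), CQ q ≤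
      Real.exp (-(3 * LL)) * ∏ p ∈ Ps (2 * Q), (1 + ww (yQ Q) κ p) := by
    refine (Finset.sum_le_sum fun q hq => rankin (by omega) hκ0 hLQ hk
      (Finset.mem_filter.1 hq).2.2).trans ?_
    rw [← Finset.mul_sum]
    refine mul_le_mul_of_nonneg_left (sum_le_prod _ _ _ (ww_nonneg _ _) fun q hq => ?_)
      (Real.exp_pos _).le
    rw [Finset.mem_filter, Finset.mem_Ioc] at hq
    exact ⟨hq.2.1, hq.1.2⟩
  have hprod : ∏ p ∈ Ps (2 * Q), (1 + ww (yQ Q) κ p) ≤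
      Real.exp (∑ p ∈ Ps (2 * Q), ww (yQ Q) κ p) := by
    rw [Real.exp_sum]
    refine Finset.prod_le_prod (fun p _ => by linarith [ww_nonneg (yQ Q) κ p]) fun p _ => ?_
    have := Real.add_one_le_exp (ww (yQ Q) κ p)
    linarith
  have hsum := sum_ww hA hκ0 hy1 hky (2 * Q)
  have hm := h1 (2 * Q) (by omega)
  have hll : Real.log (Real.log ((2 * Q : ℕ) : ℝ)) ≤ Real.log 2 + LL := by
    push_cast
    have hQr : (3 : ℝ) ≤ Q := by exact_mod_cast hQ3
    rw [Real.log_mul (by norm_num) (by positivity), hLL, ← Real.log_mul (by norm_num) hLQ0.ne',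
      ← hLQ]
    have hl2 : Real.log 2 ≤ LQ := by
      rw [hLQ]
      exact Real.log_le_log (by norm_num) (by linarith)
    apply Real.log_le_log
    · have := Real.log_pos (by norm_num : (1 : ℝ) < 2)
      linarith
    · linarith
  have htot : ∑ p ∈ Ps (2 * Q), ww (yQ Q) κ p ≤ 4 * LL + (4 * Real.log 2 + 4 * C₀ +
      48 * ∑' n : ℕ, 1 / (n : ℝ) ^ 2 + 12 * Real.exp 48 * (48 + 12 * C₁)) := by
    have h3 : 12 * Real.exp 48 * (48 + κ * C₁) ≤ 12 * Real.exp 48 * (48 + 12 * C₁) := by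
      gcongr
    linarith
  calc _ ≤ Real.exp (-(3 * LL)) * ∏ p ∈ Ps (2 * Q), (1 + ww (yQ Q) κ p) := hstep
    _ ≤ Real.exp (-(3 * LL)) * Real.exp (4 * LL + (4 * Real.log 2 + 4 * C₀ +
      48 * ∑' n : ℕ, 1 / (n : ℝ) ^ 2 + 12 * Real.exp 48 * (48 + 12 * C₁))) := by
        refine mul_le_mul_of_nonneg_left (hprod.trans (Real.exp_le_exp.2 htot)) (Real.exp_pos _).le
    _ = Real.exp (4 * Real.log 2 + 4 * C₀ + 48 * ∑' n : ℕ, 1 / (n : ℝ) ^ 2 +
          12 * Real.exp 48 * (48 + 12 * C₁)) * Real.exp LL := by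
        rw [← Real.exp_add, ← Real.exp_add]
        congr 1
        ring
    _ = _ := by rw [hLL, Real.exp_log hLQ0, hLQ]

end Pool.Agent.Helper65.TB
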