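import Pool.Agent.Helper76.TB.Goals
import Pool.Agent.Helper90.TwinI

/-!
# Project TB: `HBG`
-/

set_option autoImplicit false

open Finset Filter Topology

namespace Pool.Agent.Helper65.TB

open Pool.Agent.Helper90.Twin (Ps Gz Sz LL)
open Pool.Agent.Helper76.TB

theorem LL_le {Z : ℕ} (h : 1 ≤ Real.log Z) : LL Z ≤ 3 * Real.log Z := by
  unfold Pool.Agent.Helper90.Twin.LL
  have hZ : Z ≠ 0 := by
    rintro rfl
    simp at h
    linarith
  have h1 : (Nat.log 2 Z : ℝ) * Real.log 2 ≤ Real.log Z := by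
    rw [← Real.log_pow]
    apply Real.log_le_log (by positivity)
    exact_mod_cast Nat.pow_log_le_self 2 hZ
  have h2 : (1 / 2 : ℝ) ≤ Real.log 2 := by linarith [Real.log_two_gt_d9]
  have h3 : (0 : ℝ) ≤ Nat.log 2 Z := Nat.cast_nonneg _
  nlinarith

theorem tendsto_Gz : Tendsto Gz atTop (𝓝 0) := by
  have h1 : Tendsto (fun z : ℕ => Real.exp (-2 * Sz z)) atTop (𝓝 0) := by
    apply Real.tendsto_exp_atBot.comp
    have := Pool.Agent.Helper90.Twin.tendsto_Sz
    exact this.const_mul_atTop_of_neg (by norm_num)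
  exact squeeze_zero (fun z => (Pool.Agent.Helper90.Twin.Gz_pos z).le)
    Pool.Agent.Helper90.Twin.Gz_le_exp h1

theorem hb : HBG := by
  intro M
  have tl : Tendsto (fun Z : ℕ => Real.log (Z : ℝ)) atTop atTop :=
    Real.tendsto_log_atTop.comp tendsto_natCast_atTop_atTop
  have e1 := tl.eventually_ge_atTop (100 * (Real.exp 14 * 3 ^ 14) + 1)
  have e2 := (Real.tendsto_log_atTop.comp tl).eventually_ge_atTop 6
  have e3 : ∀ᶠ Z : ℕ in atTop, M * Gz Z ≤ 100 := by
    have h := tendsto_Gz.const_mul M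
    rw [mul_zero] at h
    exact h.eventually_le_const (by norm_num)
  have e4 : ∀ᶠ Z : ℕ in atTop, (Real.log (Z : ℝ)) ^ 16 * Real.exp (-(Real.log (Z : ℝ))) ≤ 1 / 6 :=
    ((Real.tendsto_pow_mul_exp_neg_atTop_nhds_zero 16).comp tl).eventually_le_const (by norm_num)
  filter_upwards [e1, e2, e3, e4, eventually_ge_atTop 2] with Z h1 h2 h3 h4 h5
  obtain ⟨x, hx⟩ : ∃ x, x = Real.log (Z : ℝ) := ⟨_, rfl⟩
  have hZ0 : (0 : ℝ) < Z := by exact_mod_cast (by omega : 0 < Z)
  have hexp : Real.exp x = Z := by rw [hx, Real.exp_log hZ0]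
  simp only [Function.comp_apply] at h2
  rw [← hx] at h1 h2 h4
  have hG := Pool.Agent.Helper90.Twin.Gz_pos Z
  have hG1 := Pool.Agent.Helper90.Twin.Gz_le_one Z
  have hE : 1 ≤ Real.exp 14 := Real.one_le_exp (by norm_num)
  have hx1 : 1 ≤ x := by nlinarith
  have hx0 : 0 < x := by linarith
  have hl : l2 Z = Real.log x := by
    unfold l2
    rw [hx]
  have hLL := LL_le (Z := Z) (by rw [← hx]; exact hx1)
  rw [← hx] at hLL
  have hLL1 := Pool.Agent.Helper90.Twin.LL_ge_one Z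
  have hlx : Real.log x ≤ x := by
    have := Real.log_le_sub_one_of_pos hx0
    linarith
  have hl0 : 0 ≤ Real.log x := by linarith
  have hHH1 : (100 * Real.log x / Gz Z : ℝ) ≤ HH Z := by
    unfold HH
    rw [hl]
    exact Nat.le_ceil _
  have hHH2 : (HH Z : ℝ) ≤ 100 * Real.log x / Gz Z + 1 := by
    unfold HH
    rw [hl]
    exact (Nat.ceil_lt_add_one (by positivity)).le
  have hinv := Pool.Agent.Helper90.Twin.inv_Gz_le_pow Z
  have hHx : (HH Z : ℝ) ≤ x ^ 16 := by
    have a1 : LL Z ^ 14 ≤ (3 * x) ^ 14 := pow_le_pow_left₀ (by linarith) hLL 14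
    have a2 : 100 * Real.log x / Gz Z ≤ 100 * x * (Real.exp 14 * (3 * x) ^ 14) := by
      rw [div_eq_mul_inv]
      have : (Gz Z)⁻¹ ≤ Real.exp 14 * (3 * x) ^ 14 :=
        hinv.trans (mul_le_mul_of_nonneg_left a1 (Real.exp_pos _).le)
      have hinv0 : 0 ≤ (Gz Z)⁻¹ := by positivity
      gcongr
    have a3 : 100 * x * (Real.exp 14 * (3 * x) ^ 14) = (100 * (Real.exp 14 * 3 ^ 14)) * x ^ 15 := by
      ring
    have a4 : 1 ≤ x ^ 15 := one_le_pow₀ hx1
    have a5 : (100 * (Real.exp 14 * 3 ^ 14) + 1) * x ^ 15 ≤ x * x ^ 15 :=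
      mul_le_mul_of_nonneg_right h1 (by positivity)
    have a6 : x * x ^ 15 = x ^ 16 := by ring
    linarith
  refine ⟨?_, ?_, ?_, ?_, ?_, ?_⟩
  · rw [hl]
    linarith
  · rw [hl]
    refine le_trans ?_ hHH1
    rw [le_div_iff₀ hG]
    have := mul_le_mul_of_nonneg_right h3 hl0
    linarith
  · rw [← hx]
    exact hHx
  · rw [hl]
    have := mul_le_mul_of_nonneg_right hHH2 hG.le
    have e : (100 * Real.log x / Gz Z + 1) * Gz Z = 100 * Real.log x + Gz Z := by
      field_simp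
    linarith
  · rw [hl]
    have a1 := Pool.Agent.Helper90.Twin.Sz_le Z
    have a2 : Real.log (LL Z) ≤ Real.log 3 + Real.log x := by
      rw [← Real.log_mul (by norm_num) hx0.ne']
      exact Real.log_le_log (by linarith) hLL
    have a3 : Real.log 3 ≤ 2 := by
      have := Real.log_le_sub_one_of_pos (by norm_num : (0 : ℝ) < 3)
      linarith
    linarith
  · have a1 : x ^ 16 ≤ Z / 6 := by
      have := mul_le_mul_of_nonneg_right h4 hZ0.le
      have e : x ^ 16 * Real.exp (-x) * Z = x ^ 16 := by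
        rw [← hexp, mul_assoc, ← Real.exp_add]
        simp
      linarith
    have a2 : (2 : ℝ) ≤ Z := by exact_mod_cast h5
    have a3 : (3 * (HH Z : ℝ) + 1) ≤ Z := by linarith
    exact_mod_cast a3

end Pool.Agent.Helper65.TB
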